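import Pool.Agent.helper24.ISL.Spec

/-!
# Row isl:UG (MP_512a69_al): the congruence conditions are those of a group topology
-/

set_option autoImplicit false

namespace Pool.Agent.ISL

open Matrix Filter Topology

theorem UG_mul1 {S : Set ℕ} {x y : ℚ} (hx : Dv S 1 x) (hy : Dv S 1 y) : Dv S 1 (x * y) := by
  have h := hx.mul hy
  rwa [mul_one] at h

theorem UG_prod {S : Set ℕ} {ι : Type} (s : Finset ι) (f : ι → ℚ) (h : ∀ i ∈ s, Dv S 1 (f i)) :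
    Dv S 1 (∏ i ∈ s, f i) := by
  classical
  induction s using Finset.induction_on with
  | empty =>
    rw [Finset.prod_empty]
    exact_mod_cast Dv.int (S := S) 1
  | insert a s ha ih =>
    rw [Finset.prod_insert ha]
    exact UG_mul1 (h a (Finset.mem_insert_self a s)) (ih fun i hi => h i (Finset.mem_insert_of_mem hi))

theorem UG_det {S : Set ℕ} {n : ℕ} (A : Mat n ℚ) (h : ∀ i j, Dv S 1 (A i j)) : Dv S 1 A.det := by
  rw [Matrix.det_apply']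
  refine Dv.sum fun σ _ => ?_
  exact UG_mul1 (Dv.int _) (UG_prod _ _ fun i _ => h _ _)

theorem UG_adj {n : ℕ} (g : SL n ℚ) (i j : Fin n) : (g⁻¹ : SL n ℚ) i j =
    ((g : Mat n ℚ).updateRow j (Pi.single i 1)).det := by
  rw [← Matrix.adjugate_apply]
  rfl

theorem UG_inv {S : Set ℕ} {n : ℕ} (g : SL n ℚ) (h : ∀ i j, Dv S 1 (g i j)) (i j : Fin n) :
    Dv S 1 ((g⁻¹ : SL n ℚ) i j) := by
  rw [UG_adj]
  refine UG_det _ fun k l => ?_
  rw [Matrix.updateRow_apply]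
  split_ifs
  · rw [Pi.single_apply]
    split_ifs
    · exact_mod_cast Dv.int (S := S) 1
    · exact Dv.zero
  · exact h k l

theorem UG_inv_abs {n : ℕ} (g : SL n ℚ) (h : ∀ i j, |g i j| ≤ 2) (i j : Fin n) :
    |(g⁻¹ : SL n ℚ) i j| ≤ n.factorial * 2 ^ n := by
  rw [UG_adj]
  have h1 := Matrix.det_le (A := (g : Mat n ℚ).updateRow j (Pi.single i 1))
    (abv := AbsoluteValue.abs) (x := 2) (fun k l => by
      rw [Matrix.updateRow_apply]
      show |_| ≤ _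
      split_ifs
      · rw [Pi.single_apply]
        split_ifs
        · norm_num
        · norm_num
      · exact h k l)
  rw [Fintype.card_fin, nsmul_eq_mul] at h1
  exact h1

theorem UG_mmul {n : ℕ} {S : Set ℕ} {m m' : ℕ} {A B : Mat n ℚ} (hA : ∀ i j, Dv S m (A i j))
    (hB : ∀ i j, Dv S m' (B i j)) (i j : Fin n) : Dv S (m * m') ((A * B) i j) := by
  rw [Matrix.mul_apply]
  exact Dv.sum fun k _ => (hA i k).mul (hB k j)

theorem UG_amul {n : ℕ} {A B : Mat n ℚ} {a b : ℚ} (ha : ∀ i j, |A i j| ≤ a)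
    (hb : ∀ i j, |B i j| ≤ b) (ha0 : 0 ≤ a) (i j : Fin n) : |(A * B) i j| ≤ n * (a * b) := by
  rw [Matrix.mul_apply]
  calc |∑ k, A i k * B k j| ≤ ∑ k, |A i k * B k j| := Finset.abs_sum_le_sum_abs _ _
    _ ≤ ∑ _k : Fin n, a * b := by
        refine Finset.sum_le_sum fun k _ => ?_
        rw [abs_mul]
        exact mul_le_mul (ha i k) (hb k j) (abs_nonneg _) ha0
    _ = n * (a * b) := by
        rw [Finset.sum_const, Finset.card_univ, Fintype.card_fin, nsmul_eq_mul]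

theorem UG_cancel {S : Set ℕ} {m k : ℕ} {x : ℚ} (hk : 0 < k) (h : Dv S (m * k) ((k : ℚ) * x)) :
    Dv S m x := by
  intro q hq hS
  have : Fact q.Prime := ⟨hq⟩
  have h1 := h q hq hS
  rw [Nat.cast_mul, padicNorm.mul, padicNorm.mul, mul_comm (padicNorm q (m : ℚ))] at h1
  have hk' : 0 < padicNorm q (k : ℚ) :=
    lt_of_le_of_ne (padicNorm.nonneg _) (Ne.symm (padicNorm.nonzero (by exact_mod_cast hk.ne')))
  exact le_of_mul_le_mul_left h1 hk'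

theorem UG_den {n : ℕ} (A : Mat n ℚ) : ∃ D : ℕ, 0 < D ∧ ∀ i j, Dv (∅ : Set ℕ) 1 ((D : ℚ) * A i j) := by
  refine ⟨∏ p : Fin n × Fin n, (A p.1 p.2).den, Finset.prod_pos fun p _ => (A p.1 p.2).den_pos, ?_⟩
  intro i j
  obtain ⟨c, hc⟩ := Finset.dvd_prod_of_mem (fun p : Fin n × Fin n => (A p.1 p.2).den)
    (Finset.mem_univ (i, j))
  have h1 : (((∏ p : Fin n × Fin n, (A p.1 p.2).den : ℕ) : ℚ)) * A i j =
      (((c : ℤ) * (A i j).num : ℤ) : ℚ) := by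
    rw [hc]
    push_cast
    have h2 := Rat.mul_den_eq_num (A i j)
    linear_combination (c : ℚ) * h2
  rw [h1]
  exact Dv.int _

theorem UG_bd {n : ℕ} (A : Mat n ℚ) : ∃ a : ℚ, 0 ≤ a ∧ ∀ i j, |A i j| ≤ a := by
  refine ⟨∑ p : Fin n × Fin n, |A p.1 p.2|, Finset.sum_nonneg fun p _ => abs_nonneg _, fun i j => ?_⟩
  have h := Finset.single_le_sum (f := fun p : Fin n × Fin n => |A p.1 p.2|) (s := Finset.univ)
    (a := ((i, j) : Fin n × Fin n)) (fun p _ => abs_nonneg _) (Finset.mem_univ _)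
  exact h

/-- small numbers -/
theorem UG_eps (K ε : ℚ) (hK : 0 ≤ K) (hε : 0 < ε) : 0 < ε / (K + 1) ∧ K * (ε / (K + 1)) < ε := by
  have h1 : 0 < K + 1 := by linarith
  refine ⟨div_pos hε h1, ?_⟩
  rw [← mul_div_assoc, div_lt_iff₀ h1]
  nlinarith

theorem UG_coe_one {n : ℕ} : ((1 : SL n ℚ) : Mat n ℚ) = 1 := rfl

theorem UG_coe_mul {n : ℕ} (g h : SL n ℚ) : ((g * h : SL n ℚ) : Mat n ℚ) = (g : Mat n ℚ) * (h : Mat n ℚ) :=
  rfl

theorem UG_coe_inv_mul {n : ℕ} (g : SL n ℚ) : ((g⁻¹ : SL n ℚ) : Mat n ℚ) * (g : Mat n ℚ) = 1 := by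
  rw [← UG_coe_mul, inv_mul_cancel, UG_coe_one]

theorem UG_coe_mul_inv {n : ℕ} (g : SL n ℚ) : (g : Mat n ℚ) * ((g⁻¹ : SL n ℚ) : Mat n ℚ) = 1 := by
  rw [← UG_coe_mul, mul_inv_cancel, UG_coe_one]

theorem UG_of {n : ℕ} {S : Set ℕ} {b : Bool} {m : ℕ} {ε : ℚ} {g : SL n ℚ}
    (h1 : ∀ i j, Dv S m (((g : Mat n ℚ) - 1) i j))
    (h2 : b = true → ∀ i j, |((g : Mat n ℚ) - 1) i j| < ε) : Cg S b m ε g := by
  refine ⟨fun i j => ?_, fun hb i j => ?_⟩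
  · have h := h1 i j
    rwa [Matrix.sub_apply] at h
  · have h := h2 hb i j
    rwa [Matrix.sub_apply] at h

theorem UG_to1 {n : ℕ} {S : Set ℕ} {b : Bool} {m : ℕ} {ε : ℚ} {g : SL n ℚ} (h : Cg S b m ε g)
    (i j : Fin n) : Dv S m (((g : Mat n ℚ) - 1) i j) := by
  rw [Matrix.sub_apply]
  exact h.1 i j

theorem UG_to2 {n : ℕ} {S : Set ℕ} {b : Bool} {m : ℕ} {ε : ℚ} {g : SL n ℚ} (h : Cg S b m ε g)
    (hb : b = true) (i j : Fin n) : |((g : Mat n ℚ) - 1) i j| ≤ ε := by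
  rw [Matrix.sub_apply]
  exact (h.2 hb i j).le

theorem UG_one {n : ℕ} {S : Set ℕ} {b : Bool} {m : ℕ} {ε : ℚ} (hε : 0 < ε) :
    Cg S b m ε (1 : SL n ℚ) := by
  refine UG_of (fun i j => ?_) (fun _ i j => ?_)
  · rw [UG_coe_one, sub_self, Matrix.zero_apply]
    exact Dv.zero
  · rw [UG_coe_one, sub_self, Matrix.zero_apply, abs_zero]
    exact hε

theorem UG_product {n : ℕ} {S : Set ℕ} {b : Bool} {m : ℕ} {ε ε' : ℚ} {g h : SL n ℚ} (h0 : 0 < ε')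
    (h1 : ε' ≤ 1) (h2 : ((n : ℚ) + 2) * ε' < ε) (hg : Cg S b m ε' g) (hh : Cg S b m ε' h) :
    Cg S b m ε (g * h) := by
  have hmat : ((g * h : SL n ℚ) : Mat n ℚ) - 1 =
      ((g : Mat n ℚ) - 1) * ((h : Mat n ℚ) - 1) + ((g : Mat n ℚ) - 1) + ((h : Mat n ℚ) - 1) := by
    rw [UG_coe_mul]
    noncomm_ring
  refine UG_of (fun i j => ?_) (fun hb i j => ?_)
  · rw [hmat, Matrix.add_apply, Matrix.add_apply]
    have k1 := (UG_mmul (UG_to1 hg) (UG_to1 hh) i j).mono (Dvd.intro m rfl : m ∣ m * m)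
    exact (k1.add (UG_to1 hg i j)).add (UG_to1 hh i j)
  · rw [hmat, Matrix.add_apply, Matrix.add_apply]
    have k1 := UG_amul (UG_to2 hg hb) (UG_to2 hh hb) h0.le i j
    have k2 := UG_to2 hg hb i j
    have k3 := UG_to2 hh hb i j
    generalize ((((g : Mat n ℚ) - 1) * ((h : Mat n ℚ) - 1)) i j) = x1 at k1 ⊢
    generalize (((g : Mat n ℚ) - 1) i j) = x2 at k2 ⊢
    generalize (((h : Mat n ℚ) - 1) i j) = x3 at k3 ⊢
    have h4 := abs_add_le (x1 + x2) x3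
    have h5 := abs_add_le x1 x2
    have h6 : (n : ℚ) * (ε' * ε') ≤ n * ε' := by
      refine mul_le_mul_of_nonneg_left ?_ (Nat.cast_nonneg n)
      nlinarith
    linarith

theorem UG_inverse {n : ℕ} {S : Set ℕ} {b : Bool} {m : ℕ} {ε ε' : ℚ} {g : SL n ℚ}
    (h1 : ε' ≤ 1) (h2 : (n : ℚ) * (n.factorial * 2 ^ n * ε') < ε) (hg : Cg S b m ε' g) :
    Cg S b m ε g⁻¹ := by
  have hinv := UG_coe_inv_mul g
  have hmat : ((g⁻¹ : SL n ℚ) : Mat n ℚ) - 1 =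
      -(((g⁻¹ : SL n ℚ) : Mat n ℚ) * ((g : Mat n ℚ) - 1)) := by
    rw [mul_sub, hinv, mul_one]
    abel
  have hone : ∀ i j, Dv S 1 ((1 : Mat n ℚ) i j) := by
    intro i j
    rw [Matrix.one_apply]
    split_ifs
    · exact_mod_cast Dv.int (S := S) 1
    · exact Dv.zero
  have hg1 : ∀ i j, Dv S 1 (g i j) := by
    intro i j
    have k := (hg.1 i j).one.add (hone i j)
    rwa [sub_add_cancel] at k
  refine UG_of (fun i j => ?_) (fun hb i j => ?_)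
  · rw [hmat, Matrix.neg_apply]
    have k1 := UG_mmul (UG_inv g hg1) (UG_to1 hg) i j
    rw [one_mul] at k1
    exact k1.neg
  · rw [hmat, Matrix.neg_apply, abs_neg]
    have hg2 : ∀ i j, |g i j| ≤ 2 := by
      intro i j
      have k1 := abs_add_le (g i j - (1 : Mat n ℚ) i j) ((1 : Mat n ℚ) i j)
      rw [sub_add_cancel] at k1
      have k2 : |(1 : Mat n ℚ) i j| ≤ 1 := by
        rw [Matrix.one_apply]
        split_ifs
        · norm_num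
        · norm_num
      have k3 := (hg.2 hb i j).le
      linarith
    have k1 := UG_amul (UG_inv_abs g hg2) (UG_to2 hg hb) (by positivity) i j
    exact lt_of_le_of_lt k1 h2

theorem UG_conj {n : ℕ} {S : Set ℕ} {b : Bool} {m : ℕ} {ε ε' a1 a2 : ℚ} {D1 D2 : ℕ} {x g : SL n ℚ}
    (hD1 : 0 < D1) (hD2 : 0 < D2) (hd1 : ∀ i j, Dv (∅ : Set ℕ) 1 ((D1 : ℚ) * (x : Mat n ℚ) i j))
    (hd2 : ∀ i j, Dv (∅ : Set ℕ) 1 ((D2 : ℚ) * ((x⁻¹ : SL n ℚ) : Mat n ℚ) i j))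
    (ha1 : 0 ≤ a1) (hε : 0 ≤ ε') (hb1 : ∀ i j, |(x : Mat n ℚ) i j| ≤ a1)
    (hb2 : ∀ i j, |((x⁻¹ : SL n ℚ) : Mat n ℚ) i j| ≤ a2)
    (h2 : (n : ℚ) * ((n : ℚ) * (a1 * ε') * a2) < ε) (hg : Cg S b (m * (D1 * D2)) ε' g) :
    Cg S b m ε (x * g * x⁻¹) := by
  have hxx := UG_coe_mul_inv x
  have hmat : ((x * g * x⁻¹ : SL n ℚ) : Mat n ℚ) - 1 =
      (x : Mat n ℚ) * ((g : Mat n ℚ) - 1) * ((x⁻¹ : SL n ℚ) : Mat n ℚ) := by
    rw [UG_coe_mul, UG_coe_mul, mul_sub, sub_mul, mul_one, hxx]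
  refine UG_of (fun i j => ?_) (fun hb i j => ?_)
  · have hk : (((D1 * D2 : ℕ) : ℚ)) ≠ 0 := by
      exact_mod_cast (Nat.mul_pos hD1 hD2).ne'
    have hY : ∀ i j, Dv S m ((((D1 * D2 : ℕ) : ℚ)⁻¹ • ((g : Mat n ℚ) - 1)) i j) := by
      intro i j
      refine UG_cancel (Nat.mul_pos hD1 hD2) ?_
      rw [Matrix.smul_apply, smul_eq_mul, mul_inv_cancel_left₀ hk]
      exact UG_to1 hg i j
    have hA : ∀ i j, Dv S 1 (((D1 : ℚ) • (x : Mat n ℚ)) i j) := by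
      intro i j
      rw [Matrix.smul_apply, smul_eq_mul]
      exact (hd1 i j).subset (Set.empty_subset S)
    have hB : ∀ i j, Dv S 1 (((D2 : ℚ) • ((x⁻¹ : SL n ℚ) : Mat n ℚ)) i j) := by
      intro i j
      rw [Matrix.smul_apply, smul_eq_mul]
      exact (hd2 i j).subset (Set.empty_subset S)
    have hprod : (x : Mat n ℚ) * ((g : Mat n ℚ) - 1) * ((x⁻¹ : SL n ℚ) : Mat n ℚ) =
        ((D1 : ℚ) • (x : Mat n ℚ)) * (((D1 * D2 : ℕ) : ℚ)⁻¹ • ((g : Mat n ℚ) - 1)) *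
          ((D2 : ℚ) • ((x⁻¹ : SL n ℚ) : Mat n ℚ)) := by
      rw [Matrix.mul_smul, Matrix.mul_smul, Matrix.smul_mul, Matrix.smul_mul, Matrix.smul_mul,
        smul_smul, smul_smul]
      have k1 : (D2 : ℚ) * (((D1 * D2 : ℕ) : ℚ))⁻¹ * (D1 : ℚ) = 1 := by
        push_cast
        have g1 : (D1 : ℚ) ≠ 0 := by exact_mod_cast hD1.ne'
        have g2 : (D2 : ℚ) ≠ 0 := by exact_mod_cast hD2.ne'
        field_simp
      rw [k1, one_smul]
    rw [hmat, hprod]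
    have k1 := UG_mmul (UG_mmul hA hY) hB i j
    rw [one_mul, mul_one] at k1
    exact k1
  · rw [hmat]
    have k1 := UG_amul (UG_amul hb1 (UG_to2 hg hb) ha1) hb2 (by positivity) i j
    exact lt_of_le_of_lt k1 h2

/-- **UG** -/
theorem UG : UG_stmt := by
  intro n S b m ε hm hε
  refine ⟨UG_one hε, ?_, ?_⟩
  · obtain ⟨e1, e2⟩ := UG_eps ((n : ℚ) * (n.factorial * 2 ^ n) + n + 2) ε (by positivity) hε
    generalize hK : (n : ℚ) * (n.factorial * 2 ^ n) + n + 2 = K at e1 e2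
    have hn : (0 : ℚ) ≤ n := Nat.cast_nonneg n
    have hf : (0 : ℚ) ≤ (n : ℚ) * (n.factorial * 2 ^ n) := by positivity
    have hK0 : 0 ≤ K := by linarith
    have f1 : 0 < min 1 (ε / (K + 1)) := lt_min one_pos e1
    have f2 : min 1 (ε / (K + 1)) ≤ 1 := min_le_left _ _
    have f3 : K * min 1 (ε / (K + 1)) < ε :=
      lt_of_le_of_lt (mul_le_mul_of_nonneg_left (min_le_right _ _) hK0) e2
    generalize min 1 (ε / (K + 1)) = ε' at f1 f2 f3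
    refine ⟨m, ε', hm, f1, fun g h hg hh => ⟨UG_product f1 f2 ?_ hg hh, UG_inverse f2 ?_ hg⟩⟩
    · refine lt_of_le_of_lt (mul_le_mul_of_nonneg_right ?_ f1.le) f3
      linarith
    · rw [← mul_assoc]
      refine lt_of_le_of_lt (mul_le_mul_of_nonneg_right ?_ f1.le) f3
      linarith
  · intro x
    obtain ⟨D1, hD1, hd1⟩ := UG_den (x : Mat n ℚ)
    obtain ⟨D2, hD2, hd2⟩ := UG_den ((x⁻¹ : SL n ℚ) : Mat n ℚ)
    obtain ⟨a1, ha1, hb1⟩ := UG_bd (x : Mat n ℚ)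
    obtain ⟨a2, ha2, hb2⟩ := UG_bd ((x⁻¹ : SL n ℚ) : Mat n ℚ)
    obtain ⟨e1, e2⟩ := UG_eps ((n : ℚ) * ((n : ℚ) * a1 * a2)) ε (by positivity) hε
    refine ⟨m * (D1 * D2), ε / ((n : ℚ) * ((n : ℚ) * a1 * a2) + 1),
      Nat.mul_pos hm (Nat.mul_pos hD1 hD2), e1, fun g hg => ?_⟩
    refine UG_conj hD1 hD2 hd1 hd2 ha1 e1.le hb1 hb2 (lt_of_le_of_lt (le_of_eq ?_) e2) hg
    ring

end Pool.Agent.ISL
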